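import Pool.Agent.Q155.Essential.Closure

set_option autoImplicit false

/-! The classes of parallel elements and the independence of their contributions. -/

namespace Q155.Essential

open Module

section general

variable {E X : Type*} [Field E] [AddCommGroup X] [Module E X] [FiniteDimensional E X]

theorem finrank_inf_ker (U : Submodule E X) (x : Dual E X) :
    finrank E (U ⊓ LinearMap.ker x : Submodule E X) +
      finrank E (LinearMap.range (x.domRestrict U)) = finrank E U := by
  have h1 := LinearMap.finrank_range_add_finrank_ker (x.domRestrict U)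
  have h2 : LinearMap.ker (x.domRestrict U) = (LinearMap.ker x).comap U.subtype := rfl
  have h3 := Submodule.finrank_map_subtype_eq U ((LinearMap.ker x).comap U.subtype)
  rw [Submodule.map_comap_subtype] at h3
  rw [h2] at h1
  omega

theorem finrank_inf_ker_le (U : Submodule E X) (x : Dual E X) :
    finrank E U ≤ finrank E (U ⊓ LinearMap.ker x : Submodule E X) + 1 := by
  have h1 := finrank_inf_ker U x
  have h2 : finrank E (LinearMap.range (x.domRestrict U)) ≤ 1 := by
    have := Submodule.finrank_le (LinearMap.range (x.domRestrict U))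
    rwa [Module.finrank_self] at this
  omega

theorem finrank_inf_ker_lt (U : Submodule E X) (x : Dual E X) {f : X} (hf : f ∈ U)
    (hx : x f ≠ 0) : finrank E (U ⊓ LinearMap.ker x : Submodule E X) < finrank E U := by
  apply Submodule.finrank_lt_finrank_of_lt
  refine lt_of_le_of_ne inf_le_left ?_
  intro h
  rw [← h] at hf
  exact hx hf.2

end general

universe u

variable {F E ι : Type*} [Field F] [Field E] [Algebra F E] [Fintype ι] {V : Type u}
  [AddCommGroup V] [Module F V]

/-- The part of the kernel on which `e i` vanishes. -/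
noncomputable def kap (F : Type*) {E V ι : Type*} [Field F] [Field E] [Algebra F E]
    [AddCommGroup V] [Module F V] [Fintype ι] (e a : ι → V) (t : ι → E) (i : ι) :
    Submodule E (V →ₗ[F] E) :=
  LinearMap.ker (MM (F := F) e a t) ⊓ LinearMap.ker (ev (F := F) E (e i))

theorem mem_kap {e a : ι → V} {t : ι → E} {i : ι} {f : V →ₗ[F] E} :
    f ∈ kap F e a t i ↔ MM e a t f = 0 ∧ f (e i) = 0 := Iff.rfl

theorem sg_eq (e a : ι → V) (t : ι → E) (i k : ι) :
    sg F e a t i k = finrank E (kap F e a t i ⊓ kap F e a t k : Submodule E _) := by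
  unfold sg kap
  rw [inf_inf_distrib_left]

theorem sg_self (e a : ι → V) (t : ι → E) (i : ι) :
    sg F e a t i i = finrank E (kap F e a t i) := by
  rw [sg_eq, inf_idem]

variable [FiniteDimensional F V]

theorem same_cls {e a : ι → V} {t t' : ι → E} (hs : Same F e a t t') {i k : ι}
    (h : kap F e a t i = kap F e a t k) {f : V →ₗ[F] E} (hf : MM e a t' f = 0)
    (hfi : f (e i) = 0) : f (e k) = 0 := by
  have h1 : sg F e a t i k = sg F e a t i i := by
    rw [sg_eq, sg_eq, h]
  rw [← hs.2, ← hs.2, sg_self, sg_eq] at h1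
  have h2 := Submodule.eq_of_le_of_finrank_eq inf_le_left h1
  have h3 : f ∈ kap F e a t' i := mem_kap.2 ⟨hf, hfi⟩
  rw [← h2] at h3
  exact (mem_kap.1 h3.2).2

variable [Infinite E]

theorem kap_finrank {e a : ι → V} {m : ℕ} (hm : ∀ S, Mat F e a S → S.card ≤ m)
    (hsep : Sep F e a m) {t : ι → E} (ht : IsMin F e a t) {i : ι} (hi : e i ≠ 0) :
    finrank E (kap F e a t i) + 1 = dd F e a t := by
  obtain ⟨f, hf1, hf2⟩ := exists_ne hm hsep ht hi
  have h1 := finrank_inf_ker_lt (LinearMap.ker (MM (F := F) e a t)) (ev (F := F) E (e i)) hf1 hf2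
  have h2 := finrank_inf_ker_le (LinearMap.ker (MM (F := F) e a t)) (ev (F := F) E (e i))
  unfold kap dd
  omega

theorem diff_cls {e a : ι → V} {m : ℕ} (hm : ∀ S, Mat F e a S → S.card ≤ m)
    (hsep : Sep F e a m) {t t' : ι → E} (ht : IsMin F e a t) (hs : Same F e a t t') {i k : ι}
    (hi : e i ≠ 0) (hk : e k ≠ 0) (h : kap F e a t i ≠ kap F e a t k) :
    ∃ g : V →ₗ[F] E, MM e a t' g = 0 ∧ g (e k) = 0 ∧ g (e i) ≠ 0 := by
  by_contra hcon
  push Not at hcon
  have h1 : kap F e a t' k ≤ kap F e a t' i := by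
    intro g hg
    exact mem_kap.2 ⟨(mem_kap.1 hg).1, hcon g (mem_kap.1 hg).1 (mem_kap.1 hg).2⟩
  have h2 : sg F e a t' i k = sg F e a t' k k := by
    rw [sg_self, sg_eq, inf_eq_right.2 h1]
  rw [hs.2, hs.2, sg_self, sg_eq] at h2
  have h3 := Submodule.eq_of_le_of_finrank_eq inf_le_right h2
  have h4 : kap F e a t k ≤ kap F e a t i := by
    rw [← h3]
    exact inf_le_left
  have h5 := kap_finrank hm hsep ht hi
  have h6 := kap_finrank hm hsep ht hk
  exact h (Submodule.eq_of_le_of_finrank_eq h4 (by omega)).symm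

/-- The class with label `j`. -/
def cls (F : Type*) {E V ι : Type*} [Field F] [Field E] [Algebra F E]
    [AddCommGroup V] [Module F V] [Fintype ι] (e a : ι → V) (t : ι → E)
    (j : Submodule E (V →ₗ[F] E)) : Set ι := {i | e i ≠ 0 ∧ kap F e a t i = j}

theorem vanish {e a : ι → V} {m : ℕ} (hm : ∀ S, Mat F e a S → S.card ≤ m)
    (hsep : Sep F e a m) {t t' : ι → E} (ht : IsMin F e a t) (hs : Same F e a t t')
    {j : Submodule E (V →ₗ[F] E)} {i : ι} (hi : i ∈ cls F e a t j) {y : Dual E (V →ₗ[F] E)}
    (hy : y ∈ ESpan E (Sp F e a (cls F e a t j))) {f : V →ₗ[F] E} (hf : MM e a t' f = 0)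
    (hfi : f (e i) = 0) : y f = 0 := by
  have h1 : Sp F e a (cls F e a t j) ≤ LinearMap.ker f := by
    have h0 : ∀ l ∈ cls F e a t j, f (e l) = 0 := by
      intro l hl
      exact same_cls hs (hi.2.trans hl.2.symm) hf hfi
    apply Sp_le
    · exact h0
    · intro l hl
      obtain ⟨g, hg1, hg2⟩ := exists_ne hm hsep (hs.isMin ht) hl.1
      have h2 := (hs.isMin ht).prop l hf hg1
      rw [h0 l hl, zero_mul] at h2
      rcases mul_eq_zero.1 h2.symm with h | h
      · exact absurd h hg2
      · exact h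
  unfold ESpan at hy
  induction hy using Submodule.span_induction with
  | mem x hx =>
    obtain ⟨z, hz, rfl⟩ := hx
    exact h1 hz
  | zero => rfl
  | add x y _ _ hx hy => rw [LinearMap.add_apply, hx, hy, add_zero]
  | smul c x _ hx => rw [LinearMap.smul_apply, hx, smul_zero]

omit [Infinite E] [FiniteDimensional F V] in
theorem star {e a : ι → V} [DecidableEq ι] {t : ι → E} {s : E} (hs0 : s ≠ 0) {k : ι}
    {g : V →ₗ[F] E} (hg : MM e a t g = 0) (hgk : g (e k) ≠ 0) {f : V →ₗ[F] E}
    (hf : MM e a (t + s • Pi.single k (1 : E)) f = 0) (hfk : f (e k) = 0) :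
    MM e a t f = 0 := by
  rw [MM_add, MM_smul, MM_single, LinearMap.add_apply, LinearMap.smul_apply, wedge_apply, ev_apply,
    ev_apply, hfk, zero_smul, sub_zero] at hf
  have h1 := congrArg (fun y => y g) hf
  simp only [LinearMap.add_apply, LinearMap.smul_apply, ev_apply, smul_eq_mul,
    LinearMap.zero_apply] at h1
  rw [(alt_MM e a t).neg f g, hg, LinearMap.zero_apply, neg_zero, zero_add] at h1
  have h2 : f (a k) = 0 := by
    rcases mul_eq_zero.1 h1 with h | h
    · exact absurd h hs0
    · rcases mul_eq_zero.1 h with h | h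
      · exact h
      · exact absurd h hgk
  rw [h2, zero_smul, smul_zero, add_zero] at hf
  exact hf

/-- The persistence step. -/
theorem persist {e a : ι → V} [DecidableEq ι] {m : ℕ} (hm : ∀ S, Mat F e a S → S.card ≤ m)
    (hsep : Sep F e a m) {t₀ t : ι → E} {s : E} (hs0 : s ≠ 0) {k : ι} (ht : IsMin F e a t₀)
    (hs : Same F e a t₀ t) (hs' : Same F e a t₀ (t + s • Pi.single k (1 : E)))
    (hk : e k ≠ 0) {j : Submodule E (V →ₗ[F] E)} {i : ι} (hi : i ∈ cls F e a t₀ j)
    (hkj : kap F e a t₀ k ≠ j) {y : Dual E (V →ₗ[F] E)}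
    (hy : y ∈ ESpan E (Sp F e a (cls F e a t₀ j)))
    (hyr : y ∈ LinearMap.range (MM (F := F) e a t)) :
    y ∈ LinearMap.range (MM (F := F) e a (t + s • Pi.single k (1 : E))) := by
  rw [(alt_MM e a _).mem_range] at hyr ⊢
  intro f hf
  obtain ⟨g, hg1, hg2, hg3⟩ := diff_cls hm hsep ht hs' (k := k) hi.1 hk (by
    rw [hi.2]
    exact hkj.symm)
  obtain ⟨g', hg'1, hg'2⟩ := exists_ne hm hsep (hs.isMin ht) hk
  have h1 : y g = 0 := hyr g (star hs0 hg'1 hg'2 hg1 hg2)
  set h := f - (f (e i) / g (e i)) • g with hh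
  have h2 : MM e a (t + s • Pi.single k (1 : E)) h = 0 := by
    rw [hh, map_sub, map_smul, hf, hg1, smul_zero, sub_zero]
  have h3 : h (e i) = 0 := by
    rw [hh, LinearMap.sub_apply, LinearMap.smul_apply, smul_eq_mul, div_mul_cancel₀ _ hg3,
      sub_self]
  have h4 := vanish hm hsep ht hs' hi hy h2 h3
  rw [hh, map_sub, map_smul, h1, smul_zero, sub_zero] at h4
  exact h4

omit [Fintype ι] [Infinite E] in
theorem ind_insert {S : Finset ι} [DecidableEq ι] {k : ι} (hk : k ∉ S) :
    ind E (insert k S) = ind E S + Pi.single k (1 : E) := by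
  ext i
  unfold ind
  rw [Pi.add_apply]
  by_cases hik : i = k
  · subst hik
    simp [hk]
  · simp [hik]

omit [Fintype ι] [FiniteDimensional F V] in
theorem Mat.ne_zero {e a : ι → V} {S : Finset ι} (hS : Mat F e a S) {i : ι} (hi : i ∈ S) :
    e i ≠ 0 := by
  classical
  intro h0
  have := hS (fun j => if j = i then 1 else 0) (fun _ => 0) (by
    apply Finset.sum_eq_zero
    intro j hj
    by_cases hji : j = i
    · subst hji
      simp [h0]
    · simp [hji]) i hi
  simp at this

/-- Independence of the contributions of the classes. -/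
theorem indep {e a : ι → V} {m : ℕ} (hm : ∀ S, Mat F e a S → S.card ≤ m)
    (hsep : Sep F e a m) {t : ι → E} (ht : IsMin F e a t)
    (J : Finset (Submodule E (V →ₗ[F] E))) (hJ : ∀ j ∈ J, ∃ i, i ∈ cls F e a t j)
    (y : Submodule E (V →ₗ[F] E) → Dual E (V →ₗ[F] E))
    (hy : ∀ j ∈ J, y j ∈ ESpan E (Sp F e a (cls F e a t j)))
    (hyr : ∀ j ∈ J, y j ∈ LinearMap.range (MM (F := F) e a t))
    (hsum : ∑ j ∈ J, y j = 0) (j : Submodule E (V →ₗ[F] E)) (hj : j ∈ J) : y j = 0 := by
  classical
  apply sep_zero hsep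
  intro S hS hSm
  apply closure_arg hm hS hSm t
  have hfin : ({s : E | ∃ T ∈ S.powerset, ¬ Same F e a t (t + s • ind E T)} ∪ {0}).Finite := by
    refine Set.Finite.union ?_ (Set.finite_singleton 0)
    have : {s : E | ∃ T ∈ S.powerset, ¬ Same F e a t (t + s • ind E T)} =
        ⋃ T ∈ S.powerset, {s : E | ¬ Same F e a t (t + s • ind E T)} := by
      ext s
      simp
    rw [this]
    exact Set.Finite.biUnion (Finset.finite_toSet _) fun T _ => generic ht (ind E T)
  refine hfin.subset ?_
  intro s hs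
  by_contra hcon
  simp only [Set.mem_union, Set.mem_ofPred_eq, Set.mem_singleton_iff, not_or, not_exists, not_and,
    not_not, Finset.mem_powerset] at hcon
  obtain ⟨hsame, hs0⟩ := hcon
  apply hs
  suffices h : ∀ T : Finset ι, T ⊆ S → ∀ j ∈ J,
      y j ∈ LinearMap.range (MM (F := F) e a (t + s • ind E T)) from h S subset_rfl j hj
  intro T
  induction T using Finset.induction_on with
  | empty =>
    intro _ j hj
    have : ind E (∅ : Finset ι) = 0 := by
      ext i
      simp [ind]
    rw [this, smul_zero, add_zero]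
    exact hyr j hj
  | insert k T hk ih =>
    intro hT
    have hTS : T ⊆ S := (Finset.subset_insert k T).trans hT
    have hkS : k ∈ S := hT (Finset.mem_insert_self k T)
    have ih' := ih hTS
    have heq : t + s • ind E (insert k T) = (t + s • ind E T) + s • Pi.single k (1 : E) := by
      rw [ind_insert hk, smul_add, add_assoc]
    have hs1 := hsame T hTS
    have hs2 := hsame _ hT
    rw [heq] at hs2 ⊢
    have hkne := hS.ne_zero hkS
    have hother : ∀ j ∈ J, j ≠ kap F e a t k → y j ∈ LinearMap.range (MM (F := F) e a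
        (t + s • ind E T + s • Pi.single k (1 : E))) := by
      intro j hj hne
      obtain ⟨i, hi⟩ := hJ j hj
      exact persist hm hsep hs0 ht hs1 hs2 hkne hi hne.symm (hy j hj) (ih' j hj)
    intro j hj
    by_cases hjk : j = kap F e a t k
    · have h1 : y j = -∑ l ∈ J.erase j, y l := by
        rw [← Finset.add_sum_erase J y hj] at hsum
        exact eq_neg_of_add_eq_zero_left hsum
      rw [h1]
      apply Submodule.neg_mem
      apply Submodule.sum_mem
      intro l hl
      rw [Finset.mem_erase] at hl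
      apply hother l hl.2
      rw [← hjk]
      exact hl.1
    · exact hother j hj hjk

/-- Each class contributes almost its whole dimension. -/
theorem class_finrank {e a : ι → V} {m : ℕ} (hm : ∀ S, Mat F e a S → S.card ≤ m)
    (hsep : Sep F e a m) {t : ι → E} (ht : IsMin F e a t) {j : Submodule E (V →ₗ[F] E)} {i : ι}
    (hi : i ∈ cls F e a t j) :
    finrank F (Sp F e a (cls F e a t j)) ≤ finrank E (ESpan E (Sp F e a (cls F e a t j)) ⊓
      LinearMap.range (MM (F := F) e a t) : Submodule E _) + 1 := by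
  refine (finrank_le_ESpan E _).trans ?_
  obtain ⟨g, hg1, hg2⟩ := exists_ne hm hsep ht hi.1
  refine (finrank_inf_ker_le _ (Module.evalEquiv E _ g)).trans ?_
  apply Nat.add_le_add_right
  apply Submodule.finrank_mono
  rintro y ⟨hy1, hy2⟩
  refine ⟨hy1, ?_⟩
  have hy3 : y g = 0 := hy2
  rw [SetLike.mem_coe, (alt_MM e a _).mem_range]
  intro f hf
  set h := f - (f (e i) / g (e i)) • g with hh
  have h2 : MM e a t h = 0 := by
    rw [hh, map_sub, map_smul, hf, hg1, smul_zero, sub_zero]
  have h3 : h (e i) = 0 := by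
    rw [hh, LinearMap.sub_apply, LinearMap.smul_apply, smul_eq_mul, div_mul_cancel₀ _ hg2,
      sub_self]
  have h4 := vanish hm hsep ht ⟨rfl, fun _ _ => rfl⟩ hi hy1 h2 h3
  rw [hh, map_sub, map_smul, hy3, smul_zero, sub_zero] at h4
  exact h4

/-- The sum of the contributions. -/
theorem sum_finrank {e a : ι → V} {m : ℕ} (hm : ∀ S, Mat F e a S → S.card ≤ m)
    (hsep : Sep F e a m) {t : ι → E} (ht : IsMin F e a t)
    (J : Finset (Submodule E (V →ₗ[F] E))) (hJ : ∀ j ∈ J, ∃ i, i ∈ cls F e a t j) :
    ∑ j ∈ J, finrank E (ESpan E (Sp F e a (cls F e a t j)) ⊓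
      LinearMap.range (MM (F := F) e a t) : Submodule E _) ≤ 2 * m := by
  classical
  refine le_trans ?_ (rank_le hm t)
  set N : Submodule E (V →ₗ[F] E) → Submodule E (Dual E (V →ₗ[F] E)) := fun j =>
    ESpan E (Sp F e a (cls F e a t j)) ⊓ LinearMap.range (MM (F := F) e a t) with hN
  set L : ((j : J) → N j) →ₗ[E] Dual E (V →ₗ[F] E) :=
    ∑ j : J, (N j).subtype ∘ₗ LinearMap.proj j with hL
  have hLapp : ∀ z, L z = ∑ j : J, (z j : Dual E (V →ₗ[F] E)) := by
    intro z
    rw [hL, LinearMap.sum_apply]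
    rfl
  have hinj : Function.Injective L := by
    rw [injective_iff_map_eq_zero]
    intro z hz
    rw [hLapp] at hz
    set y : Submodule E (V →ₗ[F] E) → Dual E (V →ₗ[F] E) := fun j =>
      if h : j ∈ J then (z ⟨j, h⟩ : Dual E (V →ₗ[F] E)) else 0 with hy
    have hyj : ∀ j (h : j ∈ J), y j = z ⟨j, h⟩ := by
      intro j h
      simp only [hy, dif_pos h]
    have h1 := indep hm hsep ht J hJ y
      (by
        intro j hj
        rw [hyj j hj]
        exact (z ⟨j, hj⟩).2.1)
      (by
        intro j hj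
        rw [hyj j hj]
        exact (z ⟨j, hj⟩).2.2)
      (by
        rw [← Finset.sum_coe_sort J, ← hz]
        apply Finset.sum_congr rfl
        intro j _
        exact hyj j j.2)
    ext1 j
    apply Subtype.ext
    rw [← hyj j j.2]
    exact h1 j j.2
  have h1 := LinearMap.finrank_range_of_inj hinj
  have : ∀ j : J, Module.Free E (N j) := fun j => Module.Free.of_divisionRing E (N j)
  have : ∀ j : J, Module.Finite E (N j) := fun j => inferInstance
  rw [Module.finrank_pi_fintype] at h1
  rw [← Finset.sum_coe_sort J, ← h1]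
  apply Submodule.finrank_mono
  rintro _ ⟨z, rfl⟩
  rw [hLapp]
  apply Submodule.sum_mem
  intro j _
  exact (z j).2.2

end Q155.Essential
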