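import Pool.Agent.Q155.Essential.Rank

set_option autoImplicit false

/-! The limit argument. -/

namespace Q155.Essential

open Module

universe u

variable {F E ι : Type*} [Field F] [Field E] [Algebra F E] [Fintype ι] {V : Type u}
  [AddCommGroup V] [Module F V] [FiniteDimensional F V]

/-- If `y` lies in the range of `M_{t + s 1_S}` for almost all `s`, then it lies in the range of
`M_{1_S}`. -/
theorem closure_arg [Infinite E] {e a : ι → V} {m : ℕ} (hm : ∀ S, Mat F e a S → S.card ≤ m)
    {S : Finset ι} (hS : Mat F e a S) (hSm : S.card = m) (t : ι → E) (y : Dual E (V →ₗ[F] E))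
    (hfin : {s : E | ¬ (y ∈ LinearMap.range (MM (F := F) e a (t + s • ind E S)))}.Finite) :
    y ∈ LinearMap.range (MM (F := F) e a (ind E S)) := by
  set P : ((V →ₗ[F] E) × E) →ₗ[E] Dual E (V →ₗ[F] E) :=
    (MM (F := F) e a (ind E S)).coprod (LinearMap.toSpanSingleton E _ y) with hP
  set Q : ((V →ₗ[F] E) × E) →ₗ[E] Dual E (V →ₗ[F] E) := (MM (F := F) e a t).coprod 0 with hQ
  have h1 := finite_bad P Q
  obtain ⟨c, hc⟩ := ((h1.union (hfin.image fun s => s⁻¹)).union
    (Set.finite_singleton (0 : E))).infinite_compl.nonempty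
  simp only [Set.mem_compl_iff, Set.mem_union, Set.mem_ofPred_eq, Set.mem_singleton_iff, not_or,
    not_lt, Set.mem_image, not_exists, not_and] at hc
  obtain ⟨⟨hc1, hc2⟩, hc0⟩ := hc
  have hc3 : y ∈ LinearMap.range (MM (F := F) e a (t + c⁻¹ • ind E S)) := by
    by_contra hcon
    exact hc2 c⁻¹ hcon (inv_inv c)
  have hsum : P + c • Q = (MM (F := F) e a (ind E S + c • t)).coprod
      (LinearMap.toSpanSingleton E _ y) := by
    rw [hP, hQ, MM_add, MM_smul]
    ext f <;> simp
  have hc4 : y ∈ LinearMap.range (MM (F := F) e a (ind E S + c • t)) := by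
    obtain ⟨f, hf⟩ := hc3
    refine ⟨c⁻¹ • f, ?_⟩
    rw [map_smul, ← LinearMap.smul_apply, ← MM_smul, smul_add, smul_smul, inv_mul_cancel₀ hc0,
      one_smul, add_comm]
    exact hf
  have hrange : LinearMap.range (P + c • Q) ≤ LinearMap.range (MM (F := F) e a
      (ind E S + c • t)) := by
    rw [hsum]
    rintro _ ⟨⟨f, b⟩, rfl⟩
    rw [LinearMap.coprod_apply]
    refine Submodule.add_mem _ (LinearMap.mem_range_self _ f) ?_
    rw [LinearMap.toSpanSingleton_apply]
    exact Submodule.smul_mem _ _ hc4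
  have h2 := Submodule.finrank_mono hrange
  have h3 := rank_le hm (ind E S + c • t)
  have h4 := LinearMap.finrank_range_add_finrank_ker P
  have h5 := LinearMap.finrank_range_add_finrank_ker (P + c • Q)
  have h6 := mat_card_le (E := E) hS
  have h7 : LinearMap.range (MM (F := F) e a (ind E S)) ≤ LinearMap.range P := by
    rintro _ ⟨f, rfl⟩
    refine ⟨(f, 0), ?_⟩
    rw [hP, LinearMap.coprod_apply, map_zero, add_zero]
  have h8 := Submodule.eq_of_le_of_finrank_le h7 (by omega)
  rw [h8]
  refine ⟨(0, 1), ?_⟩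
  rw [hP, LinearMap.coprod_apply, map_zero, zero_add, LinearMap.toSpanSingleton_apply, one_smul]

/-- The maximum matchings separate: no nonzero vector is in all their spans. -/
def Sep (F : Type*) {V ι : Type*} [Field F] [AddCommGroup V] [Module F V] (e a : ι → V)
    (m : ℕ) : Prop :=
  ∀ w : V, (∀ S : Finset ι, Mat F e a S → S.card = m → w ∈ Sp F e a (S : Set ι)) → w = 0

theorem sep_zero {e a : ι → V} {m : ℕ} (hsep : Sep F e a m) {y : Dual E (V →ₗ[F] E)}
    (hy : ∀ S : Finset ι, Mat F e a S → S.card = m →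
      y ∈ LinearMap.range (MM (F := F) e a (ind E S))) : y = 0 := by
  apply eq_zero_of_zphi
  intro φ
  apply hsep
  intro S hS hSm
  exact zphi_mem E φ (range_ind_le (hy S hS hSm))

/-- `e i` is not zero on the kernel. -/
theorem exists_ne [Infinite E] {e a : ι → V} {m : ℕ} (hm : ∀ S, Mat F e a S → S.card ≤ m)
    (hsep : Sep F e a m) {t : ι → E} (ht : IsMin F e a t) {i : ι} (hi : e i ≠ 0) :
    ∃ f : V →ₗ[F] E, MM e a t f = 0 ∧ f (e i) ≠ 0 := by
  by_contra hcon
  push Not at hcon
  apply hi
  rw [← ev_eq_zero_iff (F := F) E (e i)]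
  apply sep_zero hsep
  intro S hS hSm
  apply closure_arg hm hS hSm t
  refine (generic ht (ind E S)).subset ?_
  intro s hs hsame
  apply hs
  rw [(alt_MM e a _).mem_range]
  intro f hf
  have h1 : sg F e a t i i = dd F e a t := by
    unfold sg dd
    have h0 : (LinearMap.ker (MM (F := F) e a t) ⊓
      (LinearMap.ker (ev (F := F) E (e i)) ⊓ LinearMap.ker (ev (F := F) E (e i))) :
        Submodule E _) = LinearMap.ker (MM (F := F) e a t) := by
      rw [inf_eq_left]
      intro f hf
      exact ⟨hcon f hf, hcon f hf⟩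
    rw [h0]
  have h2 : sg F e a (t + s • ind E S) i i = dd F e a (t + s • ind E S) := by
    rw [hsame.1, hsame.2, h1]
  unfold sg dd at h2
  have h3 := Submodule.eq_of_le_of_finrank_eq inf_le_left h2
  have h4 : f ∈ LinearMap.ker (MM (F := F) e a (t + s • ind E S)) := hf
  rw [← h3] at h4
  exact h4.2.1

end Q155.Essential
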