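import Pool.Agent.Q155.Essential.Classes

set_option autoImplicit false

/-! The dimension inequality. -/

namespace Q155.Essential

open Module

universe u

section count

variable {F ι : Type*} [Field F] {V : Type u} [AddCommGroup V] [Module F V]
  [FiniteDimensional F V]

omit [FiniteDimensional F V] in
theorem exists_dual_one (e : ι → V) (C : Finset ι)
    (h : finrank F (Submodule.span F (e '' (C : Set ι))) = C.card) :
    ∃ φ : V →ₗ[F] F, ∀ i ∈ C, φ (e i) = 1 := by
  classical
  have hli : LinearIndependent F (fun i : C => e i) := by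
    have hr : Set.range (fun i : C => e i) = e '' (C : Set ι) := by
      ext z
      simp
    rw [linearIndependent_iff_card_eq_finrank_span, Fintype.card_coe, Set.finrank, hr, h]
  obtain ⟨g, hg⟩ := LinearMap.exists_extend ((Basis.span hli).constr F (fun _ => (1 : F)))
  refine ⟨g, fun i hi => ?_⟩
  have h1 := congrArg (fun f => f (Basis.span hli ⟨i, hi⟩)) hg
  beta_reduce at h1
  rw [Basis.constr_basis, LinearMap.comp_apply, Submodule.subtype_apply, Basis.span_apply] at h1
  exact h1

theorem cls_choice (e a : ι → V) (C : Finset ι) (hC : C.Nonempty) : ∃ v : ι → F,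
    finrank F (Submodule.span F ((fun i => a i + v i • e i) '' (C : Set ι))) +
      finrank F (Submodule.span F (e '' (C : Set ι))) + 1 ≤
      finrank F (Sp F e a (C : Set ι)) + C.card := by
  classical
  have hle : finrank F (Submodule.span F (e '' (C : Set ι))) ≤ C.card := by
    have h1 := finrank_span_finset_le_card (R := F) (C.image e)
    rw [Finset.coe_image] at h1
    exact h1.trans Finset.card_image_le
  rcases hle.eq_or_lt with h | h
  · obtain ⟨φ, hφ⟩ := exists_dual_one e C h
    refine ⟨fun i => -φ (a i), ?_⟩
    have h1 : Submodule.span F ((fun i => a i + (-φ (a i)) • e i) '' (C : Set ι)) <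
        Sp F e a (C : Set ι) := by
      have h2 : Submodule.span F ((fun i => a i + (-φ (a i)) • e i) '' (C : Set ι)) ≤
          Sp F e a (C : Set ι) := by
        rw [Submodule.span_le]
        rintro _ ⟨i, hi, rfl⟩
        exact Submodule.add_mem _ (a_mem_Sp e a hi) (Submodule.smul_mem _ _ (e_mem_Sp e a hi))
      have h3 : Submodule.span F ((fun i => a i + (-φ (a i)) • e i) '' (C : Set ι)) ≤
          LinearMap.ker φ := by
        rw [Submodule.span_le]
        rintro _ ⟨i, hi, rfl⟩
        change φ (a i + (-φ (a i)) • e i) = 0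
        rw [map_add, map_smul, hφ i hi, smul_eq_mul, mul_one, add_neg_cancel]
      refine lt_of_le_of_ne h2 ?_
      intro h4
      obtain ⟨i, hi⟩ := hC
      have h5 : e i ∈ Sp F e a (C : Set ι) := e_mem_Sp e a hi
      rw [← h4] at h5
      have h6 : φ (e i) = 0 := h3 h5
      rw [hφ i hi] at h6
      exact one_ne_zero h6
    have h2 := Submodule.finrank_lt_finrank_of_lt h1
    beta_reduce
    omega
  · refine ⟨fun _ => 0, ?_⟩
    have h1 : Submodule.span F ((fun i => a i + (0 : F) • e i) '' (C : Set ι)) ≤
        Sp F e a (C : Set ι) := by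
      rw [Submodule.span_le]
      rintro _ ⟨i, hi, rfl⟩
      exact Submodule.add_mem _ (a_mem_Sp e a hi) (Submodule.smul_mem _ _ (e_mem_Sp e a hi))
    have h2 := Submodule.finrank_mono h1
    beta_reduce
    omega

theorem finrank_sup_le {κ : Type*} (J : Finset κ) (f : κ → Submodule F V) :
    finrank F (J.sup f : Submodule F V) ≤ ∑ j ∈ J, finrank F (f j) := by
  classical
  induction J using Finset.induction_on with
  | empty => simp
  | insert j J hj ih =>
    rw [Finset.sup_insert, Finset.sum_insert hj]
    exact (Submodule.finrank_add_le_finrank_add_finrank _ _).trans (Nat.add_le_add_left ih _)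

theorem finrank_quot (U : Submodule F V) (w : V) :
    finrank F U ≤ finrank F (U.map (Submodule.span F {w}).mkQ) + 1 := by
  set π := (Submodule.span F {w}).mkQ with hπ
  have h1 := LinearMap.finrank_range_add_finrank_ker (π.domRestrict U)
  have h2 : LinearMap.range (π.domRestrict U) = U.map π := LinearMap.range_domRestrict U π
  have h3 : finrank F (LinearMap.ker (π.domRestrict U)) ≤ 1 := by
    have h4 : LinearMap.ker (π.domRestrict U) = (LinearMap.ker π).comap U.subtype := rfl
    have h5 := Submodule.finrank_map_subtype_eq U ((LinearMap.ker π).comap U.subtype)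
    rw [Submodule.map_comap_subtype] at h5
    rw [h4, ← h5, hπ, Submodule.ker_mkQ]
    refine (Submodule.finrank_mono inf_le_right).trans ?_
    have := finrank_span_le_card (R := F) ({w} : Set V)
    simpa using this
  rw [h2] at h1
  omega

theorem finrank_span_quot (b : ι → V) (w : V) :
    finrank F (Submodule.span F (Set.range b)) ≤ finrank F (Submodule.span F
      (Set.range fun i => (Submodule.span F {w}).mkQ (b i))) + 1 := by
  have h1 := finrank_quot (Submodule.span F (Set.range b)) w
  rw [Submodule.map_span, ← Set.range_comp] at h1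
  exact h1

end count

variable {F ι : Type*} [Field F] [Fintype ι]

/-- The case in which the maximum matchings separate. -/
theorem dim_sep {V : Type u} [AddCommGroup V] [Module F V] [FiniteDimensional F V]
    (e a : ι → V) {m : ℕ} (hm : ∀ S, Mat F e a S → S.card ≤ m) (hsep : Sep F e a m) :
    ∃ v : ι → F, finrank F (Submodule.span F (Set.range fun i => a i + v i • e i)) +
      finrank F (Submodule.span F (Set.range e)) ≤ 2 * m + Fintype.card ι := by
  classical
  obtain ⟨t, ht⟩ := exists_isMin F (AlgebraicClosure F) e a
  set I1 : Finset ι := Finset.univ.filter (fun i => e i ≠ 0) with hI1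
  set κ := kap F e a t with hκ
  set J := I1.image κ with hJdef
  set Cf : Submodule (AlgebraicClosure F) (V →ₗ[F] AlgebraicClosure F) → Finset ι :=
    fun j => I1.filter (fun i => κ i = j) with hCf
  have hCfc : ∀ j, ((Cf j : Finset ι) : Set ι) = cls F e a t j := by
    intro j
    ext i
    simp [hCf, hI1, cls, hκ]
  have hJ : ∀ j ∈ J, ∃ i, i ∈ Cf j := by
    intro j hj
    rw [hJdef, Finset.mem_image] at hj
    obtain ⟨i, hi, rfl⟩ := hj
    exact ⟨i, by rw [hCf, Finset.mem_filter]; exact ⟨hi, rfl⟩⟩
  have hch : ∀ j, ∃ v : ι → F, j ∈ J →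
      finrank F (Submodule.span F ((fun i => a i + v i • e i) '' (Cf j : Set ι))) +
        finrank F (Submodule.span F (e '' (Cf j : Set ι))) + 1 ≤
        finrank F (Sp F e a (Cf j : Set ι)) + (Cf j).card := by
    intro j
    by_cases hj : j ∈ J
    · obtain ⟨v, hv⟩ := cls_choice (F := F) e a (Cf j) (hJ j hj)
      exact ⟨v, fun _ => hv⟩
    · exact ⟨0, fun h => absurd h hj⟩
  choose w hw using hch
  refine ⟨fun i => if e i = 0 then 0 else w (κ i) i, ?_⟩
  set b : ι → V := fun i => a i + (if e i = 0 then 0 else w (κ i) i) • e i with hb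
  have hbC : ∀ j, ∀ i ∈ Cf j, b i = a i + w j i • e i := by
    intro j i hi
    rw [hCf, Finset.mem_filter, hI1, Finset.mem_filter] at hi
    rw [hb]
    beta_reduce
    rw [if_neg hi.1.2, hi.2]
  have hbC' : ∀ j, b '' (Cf j : Set ι) = (fun i => a i + w j i • e i) '' (Cf j : Set ι) :=
    fun j => Set.image_congr (hbC j)
  set I0 : Finset ι := Finset.univ.filter (fun i => e i = 0) with hI0
  have h1 : Submodule.span F (Set.range b) ≤
      (J.sup fun j => Submodule.span F (b '' (Cf j : Set ι))) ⊔
        Submodule.span F (b '' (I0 : Set ι)) := by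
    rw [Submodule.span_le]
    rintro _ ⟨i, rfl⟩
    by_cases hi : e i = 0
    · apply Submodule.mem_sup_right
      exact Submodule.subset_span ⟨i, by simp [hI0, hi], rfl⟩
    · apply Submodule.mem_sup_left
      have hiI : i ∈ I1 := by simp [hI1, hi]
      have h2 : Submodule.span F (b '' (Cf (κ i) : Set ι)) ≤
          J.sup fun j => Submodule.span F (b '' (Cf j : Set ι)) :=
        Finset.le_sup (f := fun j => Submodule.span F (b '' (Cf j : Set ι)))
          (Finset.mem_image_of_mem κ hiI)
      apply h2
      apply Submodule.subset_span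
      refine ⟨i, ?_, rfl⟩
      rw [hCf, Finset.mem_coe, Finset.mem_filter]
      exact ⟨hiI, rfl⟩
  have h2 : Submodule.span F (Set.range e) ≤
      J.sup fun j => Submodule.span F (e '' (Cf j : Set ι)) := by
    rw [Submodule.span_le]
    rintro _ ⟨i, rfl⟩
    by_cases hi : e i = 0
    · rw [hi]
      exact Submodule.zero_mem _
    · have hiI : i ∈ I1 := by simp [hI1, hi]
      have h2 : Submodule.span F (e '' (Cf (κ i) : Set ι)) ≤
          J.sup fun j => Submodule.span F (e '' (Cf j : Set ι)) :=
        Finset.le_sup (f := fun j => Submodule.span F (e '' (Cf j : Set ι)))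
          (Finset.mem_image_of_mem κ hiI)
      apply h2
      apply Submodule.subset_span
      refine ⟨i, ?_, rfl⟩
      rw [hCf, Finset.mem_coe, Finset.mem_filter]
      exact ⟨hiI, rfl⟩
  have h3 : finrank F (Submodule.span F (Set.range b)) ≤
      ∑ j ∈ J, finrank F (Submodule.span F (b '' (Cf j : Set ι))) + I0.card := by
    refine (Submodule.finrank_mono h1).trans ?_
    refine (Submodule.finrank_add_le_finrank_add_finrank _ _).trans ?_
    apply Nat.add_le_add (finrank_sup_le _ _)
    have h4 := finrank_span_finset_le_card (R := F) (I0.image b)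
    rw [Finset.coe_image] at h4
    exact h4.trans Finset.card_image_le
  have h4 : finrank F (Submodule.span F (Set.range e)) ≤
      ∑ j ∈ J, finrank F (Submodule.span F (e '' (Cf j : Set ι))) :=
    (Submodule.finrank_mono h2).trans (finrank_sup_le _ _)
  have h5 : ∑ j ∈ J, (Cf j).card = I1.card := by
    rw [hJdef]
    exact (Finset.card_eq_sum_card_image κ I1).symm
  have h6 : I1.card + I0.card = Fintype.card ι := by
    rw [hI1, hI0, add_comm, ← Finset.card_univ]
    exact Finset.card_filter_add_card_filter_not _
  have h7 := sum_finrank hm hsep ht J (by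
    intro j hj
    obtain ⟨i, hi⟩ := hJ j hj
    exact ⟨i, by rw [← hCfc]; exact hi⟩)
  have h8 : ∀ j ∈ J, finrank F (Submodule.span F (b '' (Cf j : Set ι))) +
      finrank F (Submodule.span F (e '' (Cf j : Set ι))) ≤
      finrank (AlgebraicClosure F) (ESpan (AlgebraicClosure F) (Sp F e a (cls F e a t j)) ⊓
        LinearMap.range (MM (F := F) e a t) : Submodule (AlgebraicClosure F) _) +
        (Cf j).card := by
    intro j hj
    obtain ⟨i, hi⟩ := hJ j hj
    have h9 := hw j hj
    rw [← hbC', hCfc] at h9
    have hi' : i ∈ cls F e a t j := by rw [← hCfc]; exact hi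
    have h10 := class_finrank hm hsep ht hi'
    rw [hCfc]
    omega
  have h9 := Finset.sum_le_sum h8
  rw [Finset.sum_add_distrib, Finset.sum_add_distrib, h5] at h9
  omega

/-- The dimension inequality. -/
theorem dim_main (n : ℕ) : ∀ (V : Type u) [AddCommGroup V] [Module F V] [FiniteDimensional F V]
    (e a : ι → V) (m : ℕ), finrank F V = n → (∀ S, Mat F e a S → S.card ≤ m) →
    ∃ v : ι → F, finrank F (Submodule.span F (Set.range fun i => a i + v i • e i)) +
      finrank F (Submodule.span F (Set.range e)) ≤ 2 * m + Fintype.card ι := by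
  classical
  induction n using Nat.strong_induction_on with
  | _ n ih =>
    intro V _ _ _ e a m hn hm
    obtain ⟨S₀, hS₀, hmax⟩ := Finset.exists_max_image
      ((Finset.univ : Finset (Finset ι)).filter fun S => Mat F e a S) Finset.card
      ⟨∅, by simp [mat_empty]⟩
    rw [Finset.mem_filter] at hS₀
    have hν : ∀ S, Mat F e a S → S.card ≤ S₀.card := fun S hS =>
      hmax S (Finset.mem_filter.2 ⟨Finset.mem_univ _, hS⟩)
    have hνm : S₀.card ≤ m := hm S₀ hS₀.2
    by_cases hsep : Sep F e a S₀.card
    · obtain ⟨v, hv⟩ := dim_sep e a hν hsep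
      exact ⟨v, by omega⟩
    · unfold Sep at hsep
      push Not at hsep
      obtain ⟨w, hw, hw0⟩ := hsep
      have hpos : 0 < S₀.card := by
        by_contra hcon
        have h0 : S₀ = ∅ := Finset.card_eq_zero.1 (by omega)
        apply hw0
        have h1 := hw S₀ hS₀.2 rfl
        rw [mem_Sp_iff] at h1
        obtain ⟨α, β, h1⟩ := h1
        rw [h0, Finset.sum_empty] at h1
        exact h1.symm
      set P := Submodule.span F {w} with hP
      have hlt : finrank F (V ⧸ P) < n := by
        have h1 := Submodule.finrank_quotient_add_finrank P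
        have h2 : finrank F P = 1 := finrank_span_singleton hw0
        omega
      have hmq : ∀ S, Mat F (fun i => P.mkQ (e i)) (fun i => P.mkQ (a i)) S →
          S.card ≤ S₀.card - 1 := by
        intro S hS
        have h1 : Mat F e a S := mat_of_comp P.mkQ hS
        have h2 := hν S h1
        by_contra hcon
        have h3 : S.card = S₀.card := by omega
        have h4 := hw S h1 h3
        rw [mem_Sp_iff] at h4
        obtain ⟨α, β, h4⟩ := h4
        have h5 := congrArg P.mkQ h4
        have h6 : P.mkQ w = 0 := by
          rw [Submodule.mkQ_apply, Submodule.Quotient.mk_eq_zero, hP]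
          exact Submodule.mem_span_singleton_self w
        rw [h6, map_sum] at h5
        have h7 := hS α β (by simpa using h5)
        apply hw0
        rw [← h4]
        apply Finset.sum_eq_zero
        intro i hi
        rw [(h7 i hi).1, (h7 i hi).2, zero_smul, zero_smul, add_zero]
      obtain ⟨v, hv⟩ := ih _ hlt (V ⧸ P) (fun i => P.mkQ (e i)) (fun i => P.mkQ (a i)) _ rfl hmq
      refine ⟨v, ?_⟩
      have h1 := finrank_span_quot (F := F) (fun i => a i + v i • e i) w
      have h2 := finrank_span_quot (F := F) e w
      rw [← hP] at h1 h2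
      have h3 : (fun i => P.mkQ (a i + v i • e i)) = fun i => P.mkQ (a i) + v i • P.mkQ (e i) := by
        funext i
        rw [map_add, map_smul]
      rw [h3] at h1
      omega

end Q155.Essential
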