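import Pool.Agent.Q155.Essential.LinAlg

set_option autoImplicit false

/-! Vectors of an `F`-space as functionals on `V →ₗ[F] E`. -/

namespace Q155.Essential

open Module

section ev

variable {F : Type*} (E : Type*) {V : Type*} [Field F] [Field E] [Algebra F E]
  [AddCommGroup V] [Module F V]

/-- Evaluation at a vector, as an `E`-linear functional on `V →ₗ[F] E`. -/
def ev (z : V) : Dual E (V →ₗ[F] E) where
  toFun f := f z
  map_add' _ _ := rfl
  map_smul' _ _ := rfl

@[simp] theorem ev_apply (z : V) (f : V →ₗ[F] E) : ev E z f = f z := rfl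

theorem ev_zero : ev (F := F) E (0 : V) = 0 := by
  ext f
  simp

/-- The functional `ι ∘ ψ`. -/
def lift (ψ : Dual F V) : V →ₗ[F] E := (Algebra.linearMap F E) ∘ₗ ψ

@[simp] theorem lift_apply (ψ : Dual F V) (z : V) : lift E ψ z = algebraMap F E (ψ z) := rfl

variable [FiniteDimensional F V]

/-- The vector obtained by applying `φ : E → F` to `y`. -/
noncomputable def zphi (φ : Dual F E) (y : Dual E (V →ₗ[F] E)) : V :=
  (Module.evalEquiv F V).symm
    { toFun := fun ψ => φ (y (lift E ψ))
      map_add' := by
        intro ψ χ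
        have : lift E (ψ + χ) = lift E ψ + lift E χ := by
          ext z
          simp
        rw [this, map_add, map_add]
      map_smul' := by
        intro c ψ
        have : lift E (c • ψ) = (algebraMap F E c) • lift E ψ := by
          ext z
          simp [Algebra.smul_def]
        rw [this, map_smul, smul_eq_mul, RingHom.id_apply, ← Algebra.smul_def, map_smul] }

theorem dual_zphi (φ : Dual F E) (y : Dual E (V →ₗ[F] E)) (ψ : Dual F V) :
    ψ (zphi E φ y) = φ (y (lift E ψ)) := by
  have h := (Module.evalEquiv F V).apply_symm_apply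
    { toFun := fun ψ => φ (y (lift E ψ))
      map_add' := by
        intro ψ χ
        have : lift E (ψ + χ) = lift E ψ + lift E χ := by
          ext z
          simp
        rw [this, map_add, map_add]
      map_smul' := by
        intro c ψ
        have : lift E (c • ψ) = (algebraMap F E c) • lift E ψ := by
          ext z
          simp [Algebra.smul_def]
        rw [this, map_smul, smul_eq_mul, RingHom.id_apply, ← Algebra.smul_def, map_smul] }
  have h2 := congrArg (fun f => f ψ) h
  exact h2

theorem zphi_add (φ : Dual F E) (y y' : Dual E (V →ₗ[F] E)) :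
    zphi E φ (y + y') = zphi E φ y + zphi E φ y' := by
  rw [← sub_eq_zero, ← Module.forall_dual_apply_eq_zero_iff F]
  intro ψ
  rw [map_sub, map_add, dual_zphi, dual_zphi, dual_zphi, LinearMap.add_apply, map_add, sub_self]

theorem zphi_smul (φ : Dual F E) (c : E) (y : Dual E (V →ₗ[F] E)) :
    zphi E φ (c • y) = zphi E (φ ∘ₗ LinearMap.mulLeft F c) y := by
  rw [← sub_eq_zero, ← Module.forall_dual_apply_eq_zero_iff F]
  intro ψ
  rw [map_sub, dual_zphi, dual_zphi]
  simp

theorem zphi_ev (φ : Dual F E) (z : V) : zphi E φ (ev E z) = φ 1 • z := by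
  rw [← sub_eq_zero, ← Module.forall_dual_apply_eq_zero_iff F]
  intro ψ
  have h : algebraMap F E (ψ z) = ψ z • (1 : E) := Algebra.algebraMap_eq_smul_one _
  rw [map_sub, dual_zphi, ev_apply, lift_apply, h, map_smul, map_smul, smul_eq_mul, smul_eq_mul,
    mul_comm, sub_self]

theorem zphi_smul_ev (φ : Dual F E) (c : E) (z : V) : zphi E φ (c • ev E z) = φ c • z := by
  rw [zphi_smul, zphi_ev]
  simp

theorem zphi_zero (φ : Dual F E) : zphi E φ (0 : Dual E (V →ₗ[F] E)) = 0 := by
  have := zphi_smul_ev E φ (0 : E) (0 : V)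
  rw [zero_smul, smul_zero] at this
  exact this

theorem zphi_sum {ι : Type*} (φ : Dual F E) (T : Finset ι) (y : ι → Dual E (V →ₗ[F] E)) :
    zphi E φ (∑ i ∈ T, y i) = ∑ i ∈ T, zphi E φ (y i) := by
  classical
  induction T using Finset.induction_on with
  | empty => simp [zphi_zero]
  | insert a T ha ih => rw [Finset.sum_insert ha, Finset.sum_insert ha, zphi_add, ih]

/-- The `E`-span of the evaluations at a set of vectors. -/
def ESpan (H : Submodule F V) : Submodule E (Dual E (V →ₗ[F] E)) :=
  Submodule.span E ((fun z => ev (F := F) E z) '' (H : Set V))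

theorem zphi_mem (φ : Dual F E) {H : Submodule F V} {y : Dual E (V →ₗ[F] E)}
    (hy : y ∈ ESpan E H) : zphi E φ y ∈ H := by
  unfold ESpan at hy
  induction hy using Submodule.span_induction generalizing φ with
  | mem x hx =>
    obtain ⟨z, hz, rfl⟩ := hx
    rw [zphi_ev]
    exact H.smul_mem _ hz
  | zero => rw [zphi_zero]; exact H.zero_mem
  | add x y _ _ hx hy => rw [zphi_add]; exact H.add_mem (hx φ) (hy φ)
  | smul c x _ hx => rw [zphi_smul]; exact hx _

/-- `V →ₗ[F] E` is spanned over `E` by the functionals `ι ∘ ψ`. -/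
theorem eq_zero_of_lift {y : Dual E (V →ₗ[F] E)} (h : ∀ ψ : Dual F V, y (lift E ψ) = 0) :
    y = 0 := by
  ext f
  rw [LinearMap.zero_apply]
  set b := Module.finBasis F V with hb
  have hf : f = ∑ i, f (b i) • lift E (b.coord i) := by
    apply b.ext
    intro j
    rw [LinearMap.sum_apply, Finset.sum_eq_single j]
    · simp
    · intro i _ hij
      simp [hij.symm]
    · intro h
      exact absurd (Finset.mem_univ j) h
  rw [hf, map_sum]
  apply Finset.sum_eq_zero
  intro i _
  rw [map_smul, h, smul_zero]

theorem eq_zero_of_zphi {y : Dual E (V →ₗ[F] E)} (h : ∀ φ : Dual F E, zphi E φ y = 0) :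
    y = 0 := by
  apply eq_zero_of_lift
  intro ψ
  rw [← Module.forall_dual_apply_eq_zero_iff F]
  intro φ
  rw [← dual_zphi, h φ, map_zero]

theorem ev_eq_zero_iff (z : V) : ev (F := F) E z = 0 ↔ z = 0 := by
  constructor
  · intro h
    rw [← Module.forall_dual_apply_eq_zero_iff F]
    intro ψ
    have h1 := congrArg (fun y => y (lift E ψ)) h
    simp only [ev_apply, lift_apply, LinearMap.zero_apply] at h1
    exact (map_eq_zero _).1 h1
  · rintro rfl
    exact ev_zero E

/-- The dimension over `E` of the span of evaluations is at least the dimension over `F`. -/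
theorem finrank_le_ESpan (H : Submodule F V) :
    finrank F H ≤ finrank E (ESpan E H) := by
  set b := Module.finBasis F H with hb
  have hli : LinearIndependent E (fun i => ev (F := F) E ((b i : H) : V)) := by
    rw [Fintype.linearIndependent_iff]
    intro c hc i
    rw [← Module.forall_dual_apply_eq_zero_iff F]
    intro φ
    have h1 := zphi_sum E φ Finset.univ (fun i => c i • ev (F := F) E ((b i : H) : V))
    rw [hc, zphi_zero] at h1
    simp only [zphi_smul_ev] at h1
    have h2 := b.linearIndependent
    rw [Fintype.linearIndependent_iff] at h2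
    apply h2 (fun i => φ (c i))
    apply Subtype.ext
    rw [Submodule.coe_sum, Submodule.coe_zero, h1]
    rfl
  have h3 := finrank_span_eq_card hli
  rw [Fintype.card_fin] at h3
  rw [← h3]
  apply Submodule.finrank_mono
  apply Submodule.span_mono
  rintro _ ⟨i, rfl⟩
  exact ⟨(b i : H), (b i).2, rfl⟩

end ev

section matching

variable {F : Type*} {V : Type*} [Field F] [AddCommGroup V] [Module F V] {ι : Type*}

/-- `S` is a matching: the vectors `e i, a i`, `i ∈ S`, are linearly independent. -/
def Mat (F : Type*) {V ι : Type*} [Field F] [AddCommGroup V] [Module F V] (e a : ι → V)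
    (S : Finset ι) : Prop :=
  ∀ α β : ι → F, ∑ i ∈ S, (α i • e i + β i • a i) = 0 → ∀ i ∈ S, α i = 0 ∧ β i = 0

/-- The span of the lines of `S`. -/
def Sp (F : Type*) {V ι : Type*} [Field F] [AddCommGroup V] [Module F V] (e a : ι → V)
    (S : Set ι) : Submodule F V := Submodule.span F (e '' S) ⊔ Submodule.span F (a '' S)

theorem e_mem_Sp (e a : ι → V) {S : Set ι} {i : ι} (hi : i ∈ S) : e i ∈ Sp F e a S :=
  Submodule.mem_sup_left (Submodule.subset_span ⟨i, hi, rfl⟩)

theorem a_mem_Sp (e a : ι → V) {S : Set ι} {i : ι} (hi : i ∈ S) : a i ∈ Sp F e a S :=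
  Submodule.mem_sup_right (Submodule.subset_span ⟨i, hi, rfl⟩)

theorem Sp_le {e a : ι → V} {S : Set ι} {P : Submodule F V} (h1 : ∀ i ∈ S, e i ∈ P)
    (h2 : ∀ i ∈ S, a i ∈ P) : Sp F e a S ≤ P := by
  unfold Sp
  apply sup_le
  · rw [Submodule.span_le]
    rintro _ ⟨i, hi, rfl⟩
    exact h1 i hi
  · rw [Submodule.span_le]
    rintro _ ⟨i, hi, rfl⟩
    exact h2 i hi

theorem mem_Sp_iff {e a : ι → V} {S : Finset ι} {w : V} :
    w ∈ Sp F e a (S : Set ι) ↔ ∃ α β : ι → F, ∑ i ∈ S, (α i • e i + β i • a i) = w := by
  classical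
  constructor
  · intro h
    unfold Sp at h
    rw [Submodule.mem_sup] at h
    obtain ⟨y, hy, z, hz, rfl⟩ := h
    obtain ⟨α, hα⟩ := (Submodule.mem_span_image_finset_iff_exists_fun' F).1 hy
    obtain ⟨β, hβ⟩ := (Submodule.mem_span_image_finset_iff_exists_fun' F).1 hz
    refine ⟨α, β, ?_⟩
    rw [Finset.sum_add_distrib]
    rw [hα, hβ]
  · rintro ⟨α, β, rfl⟩
    apply Submodule.sum_mem
    intro i hi
    exact Submodule.add_mem _ (Submodule.smul_mem _ _ (e_mem_Sp e a (Finset.mem_coe.2 hi)))
      (Submodule.smul_mem _ _ (a_mem_Sp e a (Finset.mem_coe.2 hi)))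

theorem mat_empty (e a : ι → V) : Mat F e a ∅ := by
  intro α β _ i hi
  exact absurd hi (by simp)

/-- A matching modulo `⟨w⟩` is a matching. -/
theorem mat_of_comp {W : Type*} [AddCommGroup W] [Module F W] (π : V →ₗ[F] W) {e a : ι → V}
    {S : Finset ι} (h : Mat F (fun i => π (e i)) (fun i => π (a i)) S) : Mat F e a S := by
  intro α β h0
  apply h α β
  have := congrArg π h0
  rw [map_sum, map_zero] at this
  simpa using this

end matching

end Q155.Essential
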