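import Mathlib

set_option autoImplicit false

/-! Linear algebra over an infinite field: alternating maps `X → Dual X` and pencils. -/

namespace Q155.Essential

open Module

section pencil

variable {E X Y : Type*} [Field E] [AddCommGroup X] [Module E X] [FiniteDimensional E X]
  [AddCommGroup Y] [Module E Y]

/-- In a pencil `P + s Q`, the kernel is at most as large as that of `P`, up to finitely many
values of `s`. -/
theorem finite_bad (P Q : X →ₗ[E] Y) :
    {s : E | finrank E (LinearMap.ker P) < finrank E (LinearMap.ker (P + s • Q))}.Finite := by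
  obtain ⟨K, hK⟩ := (LinearMap.ker P).exists_isCompl
  have hinj : LinearMap.ker (P ∘ₗ K.subtype) = ⊥ := by
    rw [LinearMap.ker_eq_bot']
    intro x hx
    have h1 : (x : X) ∈ LinearMap.ker P ⊓ K := ⟨hx, x.2⟩
    rw [hK.inf_eq_bot, Submodule.mem_bot] at h1
    exact Subtype.ext h1
  obtain ⟨L, hL⟩ := (P ∘ₗ K.subtype).exists_leftInverse_of_injective hinj
  set N : End E K := L ∘ₗ Q ∘ₗ K.subtype with hN
  have hfin := Module.End.finite_hasEigenvalue N
  refine (hfin.image (fun μ => -μ⁻¹)).subset ?_
  intro s hs
  rw [Set.mem_ofPred_eq] at hs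
  by_contra hcon
  -- `(P + s Q)` is injective on `K`
  have hinj2 : LinearMap.ker (P + s • Q) ⊓ K = ⊥ := by
    rw [Submodule.eq_bot_iff]
    rintro x ⟨hx1, hx2⟩
    by_contra hx0
    have h1 : P x + s • Q x = 0 := by
      have := LinearMap.mem_ker.1 hx1
      simpa using this
    have h2 : L (P x) = ⟨x, hx2⟩ := by
      have := congrArg (fun f : K →ₗ[E] K => f ⟨x, hx2⟩) hL
      simpa using this
    have h3 : (⟨x, hx2⟩ : K) + s • N ⟨x, hx2⟩ = 0 := by
      have h4 : L (P x + s • Q x) = 0 := by rw [h1, map_zero]
      rw [map_add, map_smul, h2] at h4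
      exact h4
    have hs0 : s ≠ 0 := by
      rintro rfl
      rw [zero_smul, add_zero] at h3
      apply hx0
      exact congrArg Subtype.val h3
    apply hcon
    refine ⟨-s⁻¹, ?_, ?_⟩
    · rw [Set.mem_ofPred_eq]
      apply Module.End.hasEigenvalue_of_hasEigenvector (x := ⟨x, hx2⟩)
      refine ⟨?_, ?_⟩
      · rw [Module.End.mem_eigenspace_iff]
        have h5 : s • N ⟨x, hx2⟩ = -⟨x, hx2⟩ := by
          rw [add_comm] at h3
          exact eq_neg_of_add_eq_zero_left h3
        have h6 : N ⟨x, hx2⟩ = s⁻¹ • (s • N ⟨x, hx2⟩) := by rw [smul_smul, inv_mul_cancel₀ hs0, one_smul]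
        rw [h6, h5, neg_smul, smul_neg]
      · intro h
        apply hx0
        exact congrArg Subtype.val h
    · beta_reduce
      rw [inv_neg, inv_inv, neg_neg]
  have h1 := Submodule.finrank_add_finrank_le_of_disjoint (disjoint_iff.2 hinj2)
  have h2 := Submodule.finrank_add_eq_of_isCompl hK
  omega

end pencil

section alt

variable {E X : Type*} [Field E] [AddCommGroup X] [Module E X]

/-- `M : X → Dual X` is alternating. -/
def Alt (M : X →ₗ[E] Dual E X) : Prop := ∀ f, M f f = 0

theorem Alt.neg {M : X →ₗ[E] Dual E X} (h : Alt M) (f g : X) : M f g = -M g f := by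
  have h1 := h (f + g)
  simp only [map_add, LinearMap.add_apply, h f, h g] at h1
  linear_combination h1

/-- The map `f ↦ p f • x - x f • p`. -/
def wedge (x p : Dual E X) : X →ₗ[E] Dual E X := p.smulRight x - x.smulRight p

@[simp] theorem wedge_apply (x p : Dual E X) (f : X) : wedge x p f = p f • x - x f • p := rfl

theorem alt_wedge (x p : Dual E X) : Alt (wedge x p) := by
  intro f
  rw [wedge_apply, LinearMap.sub_apply, LinearMap.smul_apply, LinearMap.smul_apply, smul_eq_mul,
    smul_eq_mul]
  ring

theorem Alt.add {M N : X →ₗ[E] Dual E X} (hM : Alt M) (hN : Alt N) : Alt (M + N) := by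
  intro f
  rw [LinearMap.add_apply, LinearMap.add_apply, hM f, hN f, add_zero]

theorem Alt.smul {M : X →ₗ[E] Dual E X} (hM : Alt M) (s : E) : Alt (s • M) := by
  intro f
  rw [LinearMap.smul_apply, LinearMap.smul_apply, hM f, smul_zero]

theorem alt_sum {ι : Type*} (T : Finset ι) (M : ι → X →ₗ[E] Dual E X) (h : ∀ i ∈ T, Alt (M i)) :
    Alt (∑ i ∈ T, M i) := by
  classical
  induction T using Finset.induction_on with
  | empty => intro f; simp
  | insert a T ha ih =>
    rw [Finset.sum_insert ha]
    exact (h a (by simp)).add (ih fun i hi => h i (by simp [hi]))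

variable [FiniteDimensional E X]

/-- The range of an alternating map is the annihilator of its kernel. -/
theorem Alt.mem_range {M : X →ₗ[E] Dual E X} (h : Alt M) (y : Dual E X) :
    y ∈ LinearMap.range M ↔ ∀ f, M f = 0 → y f = 0 := by
  constructor
  · rintro ⟨g, rfl⟩ f hf
    rw [h.neg, hf, LinearMap.zero_apply, neg_zero]
  · intro hy
    by_contra hcon
    obtain ⟨φ, hφ1, hφ2⟩ := Submodule.exists_le_ker_of_notMem hcon
    obtain ⟨f, rfl⟩ := (Module.evalEquiv E X).surjective φ
    apply hφ1
    change y f = 0
    apply hy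
    ext g
    rw [h.neg, LinearMap.zero_apply]
    have h1 : M g ∈ LinearMap.ker ((Module.evalEquiv E X) f) := hφ2 ⟨g, rfl⟩
    have h2 : (M g) f = 0 := h1
    rw [h2, neg_zero]

omit [FiniteDimensional E X] in
theorem wedge_shift (x p : Dual E X) (c : E) : wedge x (p - c • x) = wedge x p := by
  ext f g
  simp only [wedge_apply, LinearMap.sub_apply, LinearMap.smul_apply, smul_eq_mul]
  ring

omit [FiniteDimensional E X] in
theorem wedge_swap (x p : Dual E X) : wedge x p = -wedge p x := by
  ext f g
  simp only [wedge_apply, LinearMap.sub_apply, LinearMap.smul_apply, smul_eq_mul,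
    LinearMap.neg_apply]
  ring

/-- Adding a multiple of `x ∧ p`, with `x ∧ p = 0` on the kernel and `x` nonzero at a kernel
element, does not make the kernel smaller. -/
theorem ker_le_aux {M : X →ₗ[E] Dual E X} (hM : Alt M) {x p : Dual E X} (s : E) {f₀ : X}
    (hf₀ : M f₀ = 0) (hx : x f₀ ≠ 0)
    (hz : ∀ f, M f = 0 → ∀ g, M g = 0 → x f * p g = x g * p f) :
    finrank E (LinearMap.ker M) ≤ finrank E (LinearMap.ker (M + s • wedge x p)) := by
  set c := p f₀ / x f₀ with hc
  set q := p - c • x with hq
  have hq0 : ∀ f, M f = 0 → q f = 0 := by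
    intro f hf
    have h1 := hz f hf f₀ hf₀
    rw [hq, LinearMap.sub_apply, LinearMap.smul_apply, smul_eq_mul, hc]
    field_simp
    linear_combination -h1
  rw [← wedge_shift x p c, ← hq]
  obtain ⟨g, hg⟩ := (hM.mem_range q).2 hq0
  by_cases hqz : q = 0
  · have : wedge x q = 0 := by
      ext f h
      simp [hqz]
    rw [this, smul_zero, add_zero]
  -- the subspace `ker M + ⟨g⟩`
  have hgk : g ∉ LinearMap.ker M := by
    intro h
    rw [LinearMap.mem_ker, hg] at h
    exact hqz h
  set Z : Submodule E X := LinearMap.ker M ⊔ Submodule.span E {g} with hZ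
  have hZd : finrank E (LinearMap.ker M) + 1 ≤ finrank E Z := by
    have hlt : LinearMap.ker M < Z := by
      rw [hZ]
      refine lt_of_le_of_ne le_sup_left ?_
      intro h
      apply hgk
      rw [h]
      exact Submodule.mem_sup_right (Submodule.mem_span_singleton_self g)
    exact Submodule.finrank_lt_finrank_of_lt hlt
  have hqg : q g = 0 := by
    rw [← hg]
    exact hM g
  set M' := M + s • wedge x q with hM'
  -- `M'` maps `Z` to the line of `q`
  have hmap : ∀ z ∈ Z, M' z ∈ Submodule.span E {q} := by
    intro z hz'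
    rw [hZ, Submodule.mem_sup] at hz'
    obtain ⟨f, hf, y, hy, rfl⟩ := hz'
    rw [Submodule.mem_span_singleton] at hy
    obtain ⟨a, rfl⟩ := hy
    rw [LinearMap.mem_ker] at hf
    rw [Submodule.mem_span_singleton]
    refine ⟨a - s * x (f + a • g), ?_⟩
    rw [hM', LinearMap.add_apply, LinearMap.smul_apply, wedge_apply, map_add M, hf, map_smul, hg]
    have h1 : q (f + a • g) = 0 := by
      rw [map_add, map_smul, hq0 f hf, hqg, smul_zero, add_zero]
    rw [h1, zero_smul, zero_sub, sub_smul, smul_neg, smul_smul, zero_add]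
    abel
  set R : Z →ₗ[E] Dual E X := M' ∘ₗ Z.subtype with hR
  have h1 := LinearMap.finrank_range_add_finrank_ker R
  have h2 : finrank E (LinearMap.range R) ≤ 1 := by
    calc finrank E (LinearMap.range R) ≤ finrank E (Submodule.span E {q}) := by
          apply Submodule.finrank_mono
          rintro _ ⟨z, rfl⟩
          exact hmap z z.2
      _ ≤ 1 := by
          have := finrank_span_le_card (R := E) ({q} : Set (Dual E X))
          simpa using this
  have h3 : finrank E (LinearMap.ker R) ≤ finrank E (LinearMap.ker M') := by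
    have h4 : LinearMap.ker R = (LinearMap.ker M').comap Z.subtype := rfl
    rw [h4]
    have h5 := Submodule.finrank_map_subtype_eq Z ((LinearMap.ker M').comap Z.subtype)
    rw [← h5]
    apply Submodule.finrank_mono
    rw [Submodule.map_comap_subtype]
    exact inf_le_right
  omega

/-- Lemma R: if `x ∧ p` vanishes on the kernel, then the kernel does not become smaller. -/
theorem ker_le {M : X →ₗ[E] Dual E X} (hM : Alt M) {x p : Dual E X} (s : E)
    (hz : ∀ f, M f = 0 → ∀ g, M g = 0 → x f * p g = x g * p f) :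
    finrank E (LinearMap.ker M) ≤ finrank E (LinearMap.ker (M + s • wedge x p)) := by
  by_cases hx : ∃ f₀, M f₀ = 0 ∧ x f₀ ≠ 0
  · obtain ⟨f₀, h1, h2⟩ := hx
    exact ker_le_aux hM s h1 h2 hz
  by_cases hp : ∃ f₀, M f₀ = 0 ∧ p f₀ ≠ 0
  · obtain ⟨f₀, h1, h2⟩ := hp
    have h3 := ker_le_aux hM (-s) h1 h2 (x := p) (p := x) (by
      intro f hf g hg
      have := hz f hf g hg
      linear_combination -this)
    have h4 : s • wedge x p = (-s) • wedge p x := by
      rw [wedge_swap x p]
      ext f g
      simp only [LinearMap.smul_apply, LinearMap.neg_apply, smul_eq_mul]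
      ring
    rw [h4]
    exact h3
  · push Not at hx hp
    apply Submodule.finrank_mono
    intro f hf
    rw [LinearMap.mem_ker] at hf ⊢
    rw [LinearMap.add_apply, hf, LinearMap.smul_apply, wedge_apply, hx f hf, hp f hf, zero_smul,
      zero_smul, sub_zero, smul_zero, add_zero]

end alt

end Q155.Essential
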