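import Pool.Agent.Q155.Essential.Eval

set_option autoImplicit false

/-! The alternating maps `M_t = ∑ t_i (e_i ∧ a_i)` and generic parameters. -/

namespace Q155.Essential

open Module

section MM

variable {F E V ι : Type*} [Field F] [Field E] [Algebra F E] [AddCommGroup V] [Module F V]
  [Fintype ι]

/-- The map `M_t = ∑ t_i (e_i ∧ a_i)`. -/
def MM (e a : ι → V) (t : ι → E) : (V →ₗ[F] E) →ₗ[E] Dual E (V →ₗ[F] E) :=
  ∑ i, t i • wedge (ev E (e i)) (ev E (a i))

theorem MM_apply (e a : ι → V) (t : ι → E) (f g : V →ₗ[F] E) :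
    MM e a t f g = ∑ i, t i * (f (a i) * g (e i) - f (e i) * g (a i)) := by
  unfold MM
  rw [LinearMap.sum_apply, LinearMap.sum_apply]
  apply Finset.sum_congr rfl
  intro i _
  simp

theorem MM_add (e a : ι → V) (t u : ι → E) :
    MM (F := F) e a (t + u) = MM e a t + MM e a u := by
  unfold MM
  rw [← Finset.sum_add_distrib]
  apply Finset.sum_congr rfl
  intro i _
  rw [Pi.add_apply, add_smul]

theorem MM_smul (e a : ι → V) (c : E) (t : ι → E) :
    MM (F := F) e a (c • t) = c • MM e a t := by
  unfold MM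
  rw [Finset.smul_sum]
  apply Finset.sum_congr rfl
  intro i _
  rw [Pi.smul_apply, smul_eq_mul, mul_smul]

theorem alt_MM (e a : ι → V) (t : ι → E) : Alt (MM (F := F) e a t) := by
  apply alt_sum
  intro i _
  exact (alt_wedge _ _).smul _

theorem MM_single [DecidableEq ι] (e a : ι → V) (k : ι) :
    MM (F := F) e a (Pi.single k (1 : E)) = wedge (ev E (e k)) (ev E (a k)) := by
  unfold MM
  rw [Finset.sum_eq_single k]
  · rw [Pi.single_eq_same, one_smul]
  · intro i _ hi
    rw [Pi.single_eq_of_ne hi, zero_smul]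
  · intro h
    exact absurd (Finset.mem_univ k) h

/-- Dimension of the kernel. -/
noncomputable def dd (F : Type*) {E V ι : Type*} [Field F] [Field E] [Algebra F E]
    [AddCommGroup V] [Module F V] [Fintype ι] (e a : ι → V) (t : ι → E) : ℕ :=
  finrank E (LinearMap.ker (MM (F := F) e a t))

/-- Dimension of the part of the kernel on which `e i` and `e k` vanish. -/
noncomputable def sg (F : Type*) {E V ι : Type*} [Field F] [Field E] [Algebra F E]
    [AddCommGroup V] [Module F V] [Fintype ι] (e a : ι → V) (t : ι → E) (i k : ι) : ℕ :=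
  finrank E (LinearMap.ker (MM (F := F) e a t) ⊓
    (LinearMap.ker (ev (F := F) E (e i)) ⊓ LinearMap.ker (ev (F := F) E (e k))) : Submodule E _)

/-- The minimised quantity. -/
noncomputable def Phi (F : Type*) {E V ι : Type*} [Field F] [Field E] [Algebra F E]
    [AddCommGroup V] [Module F V] [Fintype ι] (e a : ι → V) (t : ι → E) : ℕ :=
  dd F e a t + ∑ i, ∑ k, sg F e a t i k

/-- `t` minimises `Phi`. -/
def IsMin (F : Type*) {E V ι : Type*} [Field F] [Field E] [Algebra F E]
    [AddCommGroup V] [Module F V] [Fintype ι] (e a : ι → V) (t : ι → E) : Prop :=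
  ∀ t' : ι → E, Phi F e a t ≤ Phi F e a t'

theorem exists_isMin (F : Type*) {V ι : Type*} [Field F] (E : Type*) [Field E] [Algebra F E]
    [AddCommGroup V] [Module F V] [Fintype ι] (e a : ι → V) : ∃ t : ι → E, IsMin F e a t := by
  obtain ⟨t, -, ht⟩ := WellFounded.has_min (measure (Phi F (E := E) e a)).wf Set.univ
    ⟨0, Set.mem_univ _⟩
  exact ⟨t, fun t' => not_lt.1 (ht t' (Set.mem_univ _))⟩

/-- Equality of the dimension data. -/
def Same (F : Type*) {E V ι : Type*} [Field F] [Field E] [Algebra F E]
    [AddCommGroup V] [Module F V] [Fintype ι] (e a : ι → V) (t t' : ι → E) : Prop :=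
  dd F e a t' = dd F e a t ∧ ∀ i k, sg F e a t' i k = sg F e a t i k

theorem Same.isMin {e a : ι → V} {t t' : ι → E} (h : Same F e a t t') (ht : IsMin F e a t) :
    IsMin F e a t' := by
  intro t''
  have : Phi F e a t' = Phi F e a t := by
    unfold Phi
    rw [h.1]
    simp only [h.2]
  rw [this]
  exact ht t''

variable [FiniteDimensional F V]

theorem generic {e a : ι → V} {t : ι → E} (ht : IsMin F e a t) (u : ι → E) :
    {s : E | ¬ Same F e a t (t + s • u)}.Finite := by
  have h1 : {s : E | dd F e a t < dd F e a (t + s • u)}.Finite := by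
    have := finite_bad (MM (F := F) e a t) (MM e a u)
    refine this.subset ?_
    intro s hs
    rw [Set.mem_ofPred_eq] at hs ⊢
    unfold dd at hs
    rw [MM_add, MM_smul] at hs
    exact hs
  have h2 : ∀ i k, {s : E | sg F e a t i k < sg F e a (t + s • u) i k}.Finite := by
    intro i k
    have := finite_bad ((MM (F := F) e a t).prod ((ev (F := F) E (e i)).prod (ev (F := F) E (e k))))
      ((MM (F := F) e a u).prod 0)
    refine this.subset ?_
    intro s hs
    rw [Set.mem_ofPred_eq] at hs ⊢
    have h3 : (MM (F := F) e a t).prod ((ev (F := F) E (e i)).prod (ev (F := F) E (e k))) +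
        s • (MM (F := F) e a u).prod 0 =
        (MM (F := F) e a (t + s • u)).prod ((ev (F := F) E (e i)).prod (ev (F := F) E (e k))) := by
      rw [MM_add, MM_smul]
      ext f <;> simp
    rw [h3, LinearMap.ker_prod, LinearMap.ker_prod, LinearMap.ker_prod, LinearMap.ker_prod]
    exact hs
  have h3 : ({s : E | dd F e a t < dd F e a (t + s • u)} ∪
      ⋃ i, ⋃ k, {s : E | sg F e a t i k < sg F e a (t + s • u) i k}).Finite :=
    h1.union (Set.finite_iUnion fun i => Set.finite_iUnion fun k => h2 i k)
  refine h3.subset ?_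
  intro s hs
  by_contra hcon
  simp only [Set.mem_union, Set.mem_iUnion, not_or, not_exists, Set.mem_ofPred_eq, not_lt] at hcon
  apply hs
  obtain ⟨h4, h5⟩ := hcon
  have h6 := ht (t + s • u)
  unfold Phi at h6
  have h7 : ∑ i, ∑ k, sg F e a (t + s • u) i k ≤ ∑ i, ∑ k, sg F e a t i k :=
    Finset.sum_le_sum fun i _ => Finset.sum_le_sum fun k _ => h5 i k
  have h8 : dd F e a (t + s • u) = dd F e a t := by omega
  have h9 : ∑ i, ∑ k, sg F e a (t + s • u) i k = ∑ i, ∑ k, sg F e a t i k := by omega
  refine ⟨h8, ?_⟩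
  intro i k
  have h10 := (Finset.sum_eq_sum_iff_of_le
    (fun i _ => Finset.sum_le_sum fun k _ => h5 i k)).1 h9 i (Finset.mem_univ i)
  exact (Finset.sum_eq_sum_iff_of_le (fun k _ => h5 i k)).1 h10 k (Finset.mem_univ k)

/-- The E-lemma. -/
theorem IsMin.prop [Infinite E] {e a : ι → V} {t : ι → E} (ht : IsMin F e a t) (k : ι)
    {f g : V →ₗ[F] E} (hf : MM e a t f = 0) (hg : MM e a t g = 0) :
    f (e k) * g (a k) = g (e k) * f (a k) := by
  classical
  by_contra hne
  set N := wedge (ev (F := F) E (e k)) (ev (F := F) E (a k)) with hN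
  have hNg : N g f ≠ 0 := by
    rw [hN, wedge_apply]
    simp only [ev_apply, LinearMap.sub_apply, LinearMap.smul_apply, smul_eq_mul]
    intro h
    apply hne
    linear_combination h
  have h1 := finite_bad ((MM (F := F) e a t).prod ((LinearMap.applyₗ f) ∘ₗ N)) (N.prod 0)
  have h2 := generic ht (Pi.single k (1 : E))
  obtain ⟨s, hs⟩ := ((h1.union h2).union (Set.finite_singleton (0 : E))).infinite_compl.nonempty
  simp only [Set.mem_compl_iff, Set.mem_union, Set.mem_ofPred_eq, Set.mem_singleton_iff, not_or,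
    not_not, not_lt] at hs
  obtain ⟨⟨hs1, hs2⟩, hs0⟩ := hs
  have h3 := hs2.1
  unfold dd at h3
  rw [MM_add, MM_smul, MM_single, ← hN] at h3
  have h4 : LinearMap.ker ((MM (F := F) e a t).prod ((LinearMap.applyₗ f) ∘ₗ N)) <
      LinearMap.ker (MM (F := F) e a t) := by
    rw [LinearMap.ker_prod]
    refine lt_of_le_of_ne inf_le_left ?_
    intro h
    have h5 : g ∈ LinearMap.ker (MM (F := F) e a t) := hg
    rw [← h] at h5
    exact hNg h5.2
  have h5 := Submodule.finrank_lt_finrank_of_lt h4
  have h6 : LinearMap.ker (MM (F := F) e a t + s • N) ≤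
      LinearMap.ker ((MM (F := F) e a t).prod ((LinearMap.applyₗ f) ∘ₗ N) + s • N.prod 0) := by
    intro h hh
    rw [LinearMap.mem_ker] at hh ⊢
    have h7 : MM (F := F) e a t h + s • N h = 0 := by simpa using hh
    have h8 := congrArg (fun y => y f) h7
    simp only [LinearMap.add_apply, LinearMap.smul_apply, LinearMap.zero_apply, smul_eq_mul] at h8
    rw [(alt_MM e a t).neg h f, hf, LinearMap.zero_apply, neg_zero, zero_add] at h8
    have h9 : N h f = 0 := by
      rcases mul_eq_zero.1 h8 with h | h
      · exact absurd h hs0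
      · exact h
    rw [LinearMap.add_apply, LinearMap.smul_apply]
    ext1
    · simpa using h7
    · simpa using h9
  have h7 := Submodule.finrank_mono h6
  omega

end MM

end Q155.Essential
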