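import Pool.Agent.Q155.Essential.Min

set_option autoImplicit false

/-! The rank of `M_t` and matchings. -/

namespace Q155.Essential

open Module

section ind

variable {F E V ι : Type*} [Field F] [Field E] [Algebra F E] [AddCommGroup V] [Module F V]
  [Fintype ι] [FiniteDimensional F V]

/-- The indicator vector. -/
noncomputable def ind (E : Type*) [Field E] {ι : Type*} (S : Finset ι) : ι → E :=
  open Classical in fun i => if i ∈ S then 1 else 0

omit [Fintype ι] in
/-- The evaluations at a matching are independent over `E`. -/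
theorem mat_coeff {e a : ι → V} {S : Finset ι} (hS : Mat F e a S) (α β : ι → E)
    (h : ∑ i ∈ S, (α i • ev (F := F) E (e i) + β i • ev (F := F) E (a i)) = 0) :
    ∀ i ∈ S, α i = 0 ∧ β i = 0 := by
  intro i hi
  have key : ∀ φ : Dual F E, φ (α i) = 0 ∧ φ (β i) = 0 := by
    intro φ
    have h1 := congrArg (fun y => zphi E φ y) h
    beta_reduce at h1
    rw [zphi_sum, zphi_zero] at h1
    simp only [zphi_add, zphi_smul_ev] at h1
    exact hS (fun i => φ (α i)) (fun i => φ (β i)) h1 i hi
  exact ⟨(Module.forall_dual_apply_eq_zero_iff F _).1 fun φ => (key φ).1,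
    (Module.forall_dual_apply_eq_zero_iff F _).1 fun φ => (key φ).2⟩

omit [FiniteDimensional F V] in
theorem MM_ind (e a : ι → V) (S : Finset ι) (f : V →ₗ[F] E) :
    MM e a (ind E S) f = ∑ i ∈ S, (f (a i) • ev E (e i) + (-f (e i)) • ev E (a i)) := by
  classical
  unfold MM ind
  rw [LinearMap.sum_apply, ← Finset.sum_filter_add_sum_filter_not Finset.univ (· ∈ S)]
  rw [Finset.sum_eq_zero (s := Finset.univ.filter (fun i => ¬ i ∈ S))]
  · rw [add_zero, Finset.filter_mem_eq_inter, Finset.univ_inter]
    apply Finset.sum_congr rfl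
    intro i hi
    rw [LinearMap.smul_apply, if_pos hi, one_smul, wedge_apply, ev_apply, ev_apply]
    ext g
    simp only [LinearMap.sub_apply, LinearMap.add_apply, LinearMap.smul_apply, smul_eq_mul]
    ring
  · intro i hi
    rw [Finset.mem_filter] at hi
    rw [if_neg hi.2, zero_smul, LinearMap.zero_apply]

theorem ker_MM_ind {e a : ι → V} {S : Finset ι} (hS : Mat F e a S) {f : V →ₗ[F] E}
    (hf : MM e a (ind E S) f = 0) : ∀ i ∈ S, f (e i) = 0 ∧ f (a i) = 0 := by
  intro i hi
  rw [MM_ind] at hf
  have := mat_coeff hS (fun i => f (a i)) (fun i => -f (e i)) hf i hi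
  exact ⟨neg_eq_zero.1 this.2, this.1⟩

theorem mat_card_le {e a : ι → V} {S : Finset ι} (hS : Mat F e a S) :
    2 * S.card ≤ finrank E (LinearMap.range (MM (F := F) e a (ind E S))) := by
  classical
  set b : S ⊕ S → Dual E (V →ₗ[F] E) :=
    Sum.elim (fun i => ev E (e i)) (fun i => ev E (a i)) with hb
  have hli : LinearIndependent E b := by
    rw [Fintype.linearIndependent_iff]
    intro c hc
    rw [Fintype.sum_sum_type] at hc
    simp only [hb, Sum.elim_inl, Sum.elim_inr] at hc
    have h1 := mat_coeff hS (fun i => if h : i ∈ S then c (Sum.inl ⟨i, h⟩) else 0)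
      (fun i => if h : i ∈ S then c (Sum.inr ⟨i, h⟩) else 0) (by
        rw [Finset.sum_add_distrib, ← Finset.sum_coe_sort S, ← Finset.sum_coe_sort S, ← hc]
        congr 1
        · apply Finset.sum_congr rfl
          intro i _
          rw [dif_pos i.2]
        · apply Finset.sum_congr rfl
          intro i _
          rw [dif_pos i.2])
    rintro (i | i)
    · have := (h1 i i.2).1
      rw [dif_pos i.2] at this
      exact this
    · have := (h1 i i.2).2
      rw [dif_pos i.2] at this
      exact this
  have h1 := finrank_span_eq_card hli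
  rw [Fintype.card_sum, Fintype.card_coe] at h1
  have h2 : Submodule.span E (Set.range b) ≤ LinearMap.range (MM (F := F) e a (ind E S)) := by
    rw [Submodule.span_le]
    rintro _ ⟨i, rfl⟩
    rw [SetLike.mem_coe, (alt_MM e a (ind E S)).mem_range]
    intro f hf
    rcases i with i | i
    · exact (ker_MM_ind hS hf i i.2).1
    · exact (ker_MM_ind hS hf i i.2).2
  have h3 := Submodule.finrank_mono h2
  omega

omit [FiniteDimensional F V] in
theorem range_ind_le {e a : ι → V} {S : Finset ι} {y : Dual E (V →ₗ[F] E)}
    (hy : y ∈ LinearMap.range (MM (F := F) e a (ind E S))) :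
    y ∈ ESpan E (Sp F e a (S : Set ι)) := by
  obtain ⟨f, rfl⟩ := hy
  rw [MM_ind]
  apply Submodule.sum_mem
  intro i hi
  unfold ESpan
  apply Submodule.add_mem
  · apply Submodule.smul_mem
    apply Submodule.subset_span
    exact ⟨e i, e_mem_Sp e a (Finset.mem_coe.2 hi), rfl⟩
  · apply Submodule.smul_mem
    apply Submodule.subset_span
    exact ⟨a i, a_mem_Sp e a (Finset.mem_coe.2 hi), rfl⟩

end ind

section rank

/-- Composition with `π`. -/
def pull {F : Type*} (E : Type*) {V W : Type*} [Field F] [Field E] [Algebra F E] [AddCommGroup V]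
    [Module F V] [AddCommGroup W] [Module F W] (π : V →ₗ[F] W) :
    (W →ₗ[F] E) →ₗ[E] (V →ₗ[F] E) where
  toFun g := g ∘ₗ π
  map_add' _ _ := rfl
  map_smul' _ _ := rfl

universe u

variable {F E ι : Type*} [Field F] [Field E] [Algebra F E] [Fintype ι]

theorem MM_pull {V W : Type*} [AddCommGroup V] [Module F V] [AddCommGroup W] [Module F W]
    (π : V →ₗ[F] W) (e a : ι → V) (t : ι → E) (g : W →ₗ[F] E) :
    (MM e a t (pull E π g)) ∘ₗ pull E π = MM (fun i => π (e i)) (fun i => π (a i)) t g := by
  ext h
  rw [LinearMap.comp_apply, MM_apply, MM_apply]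
  rfl

theorem rank_quot_le {V : Type*} [AddCommGroup V] [Module F V] [FiniteDimensional F V]
    (e a : ι → V) (t : ι → E) (x p : V) {f₀ g₀ : V →ₗ[F] E} (hf₀ : MM e a t f₀ = 0)
    (hg₀ : MM e a t g₀ = 0) (hne : f₀ x * g₀ p ≠ g₀ x * f₀ p) :
    finrank E (LinearMap.range (MM (F := F) e a t)) ≤
      finrank E (LinearMap.range (MM (F := F) (fun i => (Submodule.span F {x, p}).mkQ (e i))
        (fun i => (Submodule.span F {x, p}).mkQ (a i)) t)) := by
  set P := Submodule.span F {x, p} with hP
  -- decomposition
  have hdec : ∀ f : V →ₗ[F] E, ∃ g : (V ⧸ P) →ₗ[F] E, ∃ u, MM e a t u = 0 ∧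
      f = pull E P.mkQ g + u := by
    intro f
    set D := f₀ x * g₀ p - g₀ x * f₀ p with hD
    have hD0 : D ≠ 0 := sub_ne_zero.2 hne
    set u := ((f x * g₀ p - g₀ x * f p) / D) • f₀ + ((f₀ x * f p - f x * f₀ p) / D) • g₀ with hu
    have h1 : u x = f x := by
      rw [hu, LinearMap.add_apply, LinearMap.smul_apply, LinearMap.smul_apply, smul_eq_mul,
        smul_eq_mul]
      field_simp
      rw [hD]
      ring
    have h2 : u p = f p := by
      rw [hu, LinearMap.add_apply, LinearMap.smul_apply, LinearMap.smul_apply, smul_eq_mul,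
        smul_eq_mul]
      field_simp
      rw [hD]
      ring
    have h3 : P ≤ LinearMap.ker (f - u) := by
      rw [hP, Submodule.span_le]
      rintro z hz
      rcases hz with rfl | hz
      · change (f - u) z = 0
        rw [LinearMap.sub_apply, h1, sub_self]
      · rw [Set.mem_singleton_iff] at hz
        subst hz
        change (f - u) z = 0
        rw [LinearMap.sub_apply, h2, sub_self]
    refine ⟨P.liftQ (f - u) h3, u, ?_, ?_⟩
    · rw [hu, map_add, map_smul, map_smul, hf₀, hg₀, smul_zero, smul_zero, add_zero]
    · ext z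
      change f z = P.liftQ (f - u) h3 (P.mkQ z) + u z
      rw [Submodule.mkQ_apply, Submodule.liftQ_apply, LinearMap.sub_apply, sub_add_cancel]
  set L : LinearMap.range (MM (F := F) e a t) →ₗ[E] Dual E ((V ⧸ P) →ₗ[F] E) :=
    (LinearMap.lcomp E E (pull E P.mkQ)) ∘ₗ (LinearMap.range (MM (F := F) e a t)).subtype with hL
  have hLapp : ∀ y, L y = (y : Dual E (V →ₗ[F] E)) ∘ₗ pull E P.mkQ := fun _ => rfl
  have hinj : Function.Injective L := by
    rw [injective_iff_map_eq_zero]
    rintro ⟨y, hy⟩ h
    rw [hLapp] at h
    apply Subtype.ext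
    change y = 0
    ext f
    obtain ⟨g, u, hu, rfl⟩ := hdec f
    rw [map_add, ((alt_MM e a t).mem_range y).1 hy u hu, add_zero]
    exact congrArg (fun z => z g) h
  rw [← LinearMap.finrank_range_of_inj hinj]
  apply Submodule.finrank_mono
  rintro _ ⟨⟨y, hy⟩, rfl⟩
  rw [hLapp]
  obtain ⟨f, rfl⟩ := hy
  obtain ⟨g, u, hu, rfl⟩ := hdec f
  refine ⟨g, ?_⟩
  rw [← MM_pull]
  change _ = (MM e a t _) ∘ₗ _
  rw [map_add, hu, add_zero]

theorem rank_add_le {V : Type*} [AddCommGroup V] [Module F V] [FiniteDimensional F V]
    (M : (V →ₗ[F] E) →ₗ[E] Dual E (V →ₗ[F] E)) (c : E) (x p : Dual E (V →ₗ[F] E)) :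
    finrank E (LinearMap.range (M + c • wedge x p)) ≤ finrank E (LinearMap.range M) + 2 := by
  have h1 : LinearMap.range (M + c • wedge x p) ≤
      LinearMap.range M ⊔ Submodule.span E {x, p} := by
    rintro _ ⟨f, rfl⟩
    rw [LinearMap.add_apply, LinearMap.smul_apply, wedge_apply]
    apply Submodule.add_mem
    · exact Submodule.mem_sup_left ⟨f, rfl⟩
    · apply Submodule.smul_mem
      apply Submodule.mem_sup_right
      apply Submodule.sub_mem
      · apply Submodule.smul_mem
        exact Submodule.subset_span (by simp)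
      · apply Submodule.smul_mem
        exact Submodule.subset_span (by simp)
  have h2 := Submodule.finrank_mono h1
  have h3 := Submodule.finrank_add_le_finrank_add_finrank (LinearMap.range M)
    (Submodule.span E {x, p})
  have h4 : finrank E (Submodule.span E {x, p}) ≤ 2 := by
    classical
    have h5 := finrank_span_finset_le_card (R := E) ({x, p} : Finset (Dual E (V →ₗ[F] E)))
    have h6 : ({x, p} : Finset (Dual E (V →ₗ[F] E))).card ≤ 2 := Finset.card_le_two
    rw [Finset.coe_insert, Finset.coe_singleton] at h5
    exact h5.trans h6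
  omega

theorem rank_le_matching (n : ℕ) : ∀ (V : Type u) [AddCommGroup V] [Module F V]
    [FiniteDimensional F V] (e a : ι → V) (t : ι → E),
    (∃ T : Finset ι, T.card = n ∧ ∀ i, i ∉ T → t i = 0) →
    ∃ S : Finset ι, Mat F e a S ∧ (∀ i ∈ S, t i ≠ 0) ∧
      finrank E (LinearMap.range (MM (F := F) e a t)) ≤ 2 * S.card := by
  classical
  induction n with
  | zero =>
    intro V _ _ _ e a t ⟨T, hT, ht⟩
    refine ⟨∅, mat_empty e a, by simp, ?_⟩
    have h0 : t = 0 := by
      ext i
      apply ht
      rw [Finset.card_eq_zero.1 hT]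
      simp
    have h1 : MM (F := F) e a t = 0 := by
      unfold MM
      rw [h0]
      simp
    rw [h1]
    simp
  | succ n ih =>
    intro V _ _ _ e a t ⟨T, hT, ht⟩
    obtain ⟨i, hi⟩ : T.Nonempty := by
      rw [← Finset.card_pos]
      omega
    set t' : ι → E := Function.update t i 0 with ht'
    have hsum : t = t' + (t i) • (Pi.single i (1 : E)) := by
      ext j
      by_cases hj : j = i
      · subst hj
        simp [ht']
      · simp [ht', hj]
    have hT' : ∃ T : Finset ι, T.card = n ∧ ∀ i, i ∉ T → t' i = 0 := by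
      refine ⟨T.erase i, by rw [Finset.card_erase_of_mem hi]; omega, ?_⟩
      intro j hj
      by_cases hji : j = i
      · subst hji
        simp [ht']
      · rw [ht', Function.update_of_ne hji]
        apply ht
        intro h
        exact hj (Finset.mem_erase.2 ⟨hji, h⟩)
    have hMM : MM (F := F) e a t = MM e a t' + (t i) • wedge (ev E (e i)) (ev E (a i)) := by
      conv_lhs => rw [hsum]
      rw [MM_add, MM_smul, MM_single]
    have htne : ∀ j, t' j ≠ 0 → t j ≠ 0 := by
      intro j hj
      by_cases hji : j = i
      · subst hji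
        exact absurd (by simp [ht']) hj
      · rw [ht', Function.update_of_ne hji] at hj
        exact hj
    by_cases hz : t i ≠ 0 ∧ ∃ f g : V →ₗ[F] E, MM e a t' f = 0 ∧ MM e a t' g = 0 ∧
        f (e i) * g (a i) ≠ g (e i) * f (a i)
    · obtain ⟨hti, f, g, hf, hg, hne⟩ := hz
      set P := Submodule.span F {e i, a i} with hP
      obtain ⟨S, hS1, hS2, hS3⟩ := ih (V ⧸ P) (fun i => P.mkQ (e i)) (fun i => P.mkQ (a i)) t' hT'
      have hiS : i ∉ S := by
        intro h
        apply hS2 i h
        simp [ht']
      refine ⟨insert i S, ?_, ?_, ?_⟩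
      · intro α β h0
        have h1 := congrArg P.mkQ h0
        rw [Finset.sum_insert hiS] at h1
        have h2 : P.mkQ (α i • e i + β i • a i) = 0 := by
          rw [Submodule.mkQ_apply, Submodule.Quotient.mk_eq_zero, hP]
          exact Submodule.add_mem _ (Submodule.smul_mem _ _ (Submodule.subset_span (by simp)))
            (Submodule.smul_mem _ _ (Submodule.subset_span (by simp)))
        rw [map_add, h2, zero_add, map_sum, map_zero] at h1
        have h3 : ∀ j ∈ S, α j = 0 ∧ β j = 0 := hS1 α β (by simpa using h1)
        rw [Finset.sum_insert hiS, Finset.sum_eq_zero (s := S), add_zero] at h0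
        · have h4 : ∀ h : V →ₗ[F] E, algebraMap F E (α i) * h (e i) +
              algebraMap F E (β i) * h (a i) = 0 := by
            intro h
            have h5 := congrArg h h0
            rw [map_add, map_smul, map_smul, map_zero, Algebra.smul_def, Algebra.smul_def] at h5
            exact h5
          have h5 := h4 f
          have h6 := h4 g
          have h7 : algebraMap F E (α i) = 0 := by
            have h8 : algebraMap F E (α i) * (f (e i) * g (a i) - g (e i) * f (a i)) = 0 := by
              linear_combination (g (a i)) * h5 - (f (a i)) * h6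
            rcases mul_eq_zero.1 h8 with h | h
            · exact h
            · exact absurd (sub_eq_zero.1 h) hne
          have h8 : algebraMap F E (β i) = 0 := by
            have h8 : algebraMap F E (β i) * (f (e i) * g (a i) - g (e i) * f (a i)) = 0 := by
              linear_combination (f (e i)) * h6 - (g (e i)) * h5
            rcases mul_eq_zero.1 h8 with h | h
            · exact h
            · exact absurd (sub_eq_zero.1 h) hne
          intro j hj
          rcases Finset.mem_insert.1 hj with rfl | hj
          · exact ⟨(map_eq_zero _).1 h7, (map_eq_zero _).1 h8⟩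
          · exact h3 j hj
        · intro j hj
          rw [(h3 j hj).1, (h3 j hj).2, zero_smul, zero_smul, add_zero]
      · intro j hj
        rcases Finset.mem_insert.1 hj with rfl | hj
        · exact hti
        · exact htne j (hS2 j hj)
      · rw [Finset.card_insert_of_notMem hiS, hMM]
        have h1 := rank_add_le (MM (F := F) e a t') (t i) (ev E (e i)) (ev E (a i))
        have h2 := rank_quot_le e a t' (e i) (a i) hf hg hne
        rw [← hP] at h2
        omega
    · obtain ⟨S, hS1, hS2, hS3⟩ := ih V e a t' hT'
      refine ⟨S, hS1, fun j hj => htne j (hS2 j hj), ?_⟩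
      refine le_trans ?_ hS3
      by_cases hti : t i = 0
      · rw [hMM, hti, zero_smul, add_zero]
      · have hz' : ∀ f, MM (F := F) e a t' f = 0 → ∀ g, MM (F := F) e a t' g = 0 →
            ev E (e i) f * ev E (a i) g = ev E (e i) g * ev E (a i) f := by
          intro f hf g hg
          by_contra hcon
          exact hz ⟨hti, f, g, hf, hg, hcon⟩
        have h1 := ker_le (alt_MM e a t') (t i) hz'
        rw [← hMM] at h1
        have h2 := LinearMap.finrank_range_add_finrank_ker (MM (F := F) e a t)
        have h3 := LinearMap.finrank_range_add_finrank_ker (MM (F := F) e a t')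
        omega

/-- If all matchings have at most `m` members then all the maps `M_t` have rank at most `2m`. -/
theorem rank_le {V : Type u} [AddCommGroup V] [Module F V] [FiniteDimensional F V] {e a : ι → V}
    {m : ℕ} (hm : ∀ S, Mat F e a S → S.card ≤ m) (t : ι → E) :
    finrank E (LinearMap.range (MM (F := F) e a t)) ≤ 2 * m := by
  obtain ⟨S, hS1, -, hS3⟩ := rank_le_matching (F := F) (E := E) Finset.univ.card V e a t
    ⟨Finset.univ, rfl, fun i hi => absurd (Finset.mem_univ i) hi⟩
  have := hm S hS1
  omega

end rank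

end Q155.Essential
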